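import Pool.Agent.H81.RI.Main

/-!
# Rooted irregular graphs of every large order, for all small patterns at once

For all `n` and `K`, all large `m` have the property that there are `K` pairwise non-isomorphic
graphs with exactly `m` vertices, each of which is `(F)_r`-irregular for every connected graph `F`
with `3 ≤ |F| ≤ n` and every root `r` of `F` that is not the centre of a star.
-/

set_option autoImplicit false

namespace Pool.Agent.Results.MP_c25556_co.AllLargeOrders

/-- The `(F)_r`-degree of `v` in `G`: the number of the subgraphs `H` of `G` such that some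
isomorphism from `F` to `H` sends the root `r` to `v`. -/
noncomputable def rootedDegree {V W : Type} (F : SimpleGraph V) (r : V) (G : SimpleGraph W)
    (v : W) : ℕ :=
  {H : G.Subgraph | ∃ φ : F ≃g H.coe, (φ r : W) = v}.ncard

/-- `G` is `(F)_r`-irregular: distinct vertices have distinct `(F)_r`-degrees. -/
def Irregular {V W : Type} (F : SimpleGraph V) (r : V) (G : SimpleGraph W) : Prop :=
  ∀ u v : W, u ≠ v → rootedDegree F r G u ≠ rootedDegree F r G v

/-- `F` is a star with centre `r`: its edges are exactly the pairs of `r` and another vertex. -/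
def IsStar {V : Type} (F : SimpleGraph V) (r : V) : Prop :=
  ∀ a b, F.Adj a b ↔ a ≠ b ∧ (a = r ∨ b = r)

/-- For all `n` and `K` there is `m₀` such that for every `m ≥ m₀` there are `K` pairwise
non-isomorphic graphs with exactly `m` vertices, each of which is `(F)_r`-irregular for every
connected graph `F` with `3 ≤ |F| ≤ n` and every root `r` of `F` such that `F` is not a star with
centre `r`. -/
theorem result (n K : ℕ) :
    ∃ m₀ : ℕ, ∀ m, m₀ ≤ m → ∃ G : Fin K → SimpleGraph (Fin m),
      (∀ i j, i ≠ j → ¬ Nonempty (G i ≃g G j)) ∧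
      ∀ (i : Fin K) (V : Type) [Fintype V] (F : SimpleGraph V), F.Connected →
        3 ≤ Fintype.card V → Fintype.card V ≤ n → ∀ r : V, ¬ IsStar F r →
          Irregular F r (G i) := by
  obtain ⟨m₀, h⟩ := Pool.Agent.H81.RI.main (n + 3) K (by omega)
  refine ⟨m₀, fun m hm => ?_⟩
  obtain ⟨G, hG1, hG2⟩ := h m hm
  refine ⟨G, hG1, ?_⟩
  intro i V _ F hF h3 hn r hr u v huv he
  exact huv ((hG2 i V F hF h3 (by omega) r hr).1
    (Pool.Agent.Q274.FI.Emb_card_eq_of_degree he))

end Pool.Agent.Results.MP_c25556_co.AllLargeOrders
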